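import Pool.Agent.W221.NS.Stm4
import Pool.Agent.W327.ME.HYP

/-!
Project MH (helper221), part HYP3: from a solution with force to the hypothesis of the local
regularity theorem.
-/

open MeasureTheory Set Metric
open scoped ContDiff ENNReal Topology

namespace Pool.Agent.W878.MH

open H459R3.NS W221.NS
open Pool.Agent.W327.ME (pd_smooth slice slice1 dt_smooth B2_nonneg B2_mono A2_le grow_bd)

theorem res_smooth {v : ℝ → V → V} {q : ℝ → V → ℝ}
    (hv : ContDiffOn ℝ ∞ (fun z : ℝ × V => v z.1 z.2) (Ioo (-1) 0 ×ˢ univ))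
    (hq : ContDiffOn ℝ ∞ (fun z : ℝ × V => q z.1 z.2) (Ioo (-1) 0 ×ˢ univ)) {t : ℝ}
    (ht : t ∈ Ioo (-1 : ℝ) 0) : ContDiff ℝ ∞ (res v q t) := by
  have hN : ContDiff ℝ ∞ (fun x i => deriv (fun s => v s x i) t) := dt_smooth hv ht
  have hvt : ContDiff ℝ ∞ (v t) := slice hv ht
  have hqt : ContDiff ℝ ∞ (q t) := slice1 hq ht
  rw [contDiff_pi] at hN
  have hvi := contDiff_pi.1 hvt
  rw [contDiff_pi]
  intro i
  unfold res
  refine (((hN i).add ?_).sub ?_).add (pd_smooth hqt i)
  · unfold adv
    exact ContDiff.sum fun j _ => (hvi j).mul (pd_smooth (hvi i) j)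
  · unfold lap
    exact ContDiff.sum fun j _ => pd_smooth (pd_smooth (hvi i) j) j

theorem t_HYP3 (h1 : S_TSM) (h2 : S_DEC) (h3 : S_DECT) (h4 : S_GROW) (h5 : S_SUPT)
    (h6 : S_TLIN) : S_HYP3 := by
  intro g C hg
  obtain ⟨Cg, hCg, hgrow⟩ := h4
  obtain ⟨CD, hCD, hdec⟩ := h2 g C hg
  obtain ⟨CT, hCT, hdect⟩ := h3 g C hg
  obtain ⟨CS, hCS, hsupt⟩ := h5 g C hg
  set K4 : ℝ := 128 * Cg with hK4
  have hK4pos : 0 < K4 := by positivity
  set C' : ℝ := 1 + 257 * K4 * CD ^ 2 + (1 + CT) * K4 + CT ^ 2 + CS with hC'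
  have e1 : 0 < 257 * K4 * CD ^ 2 := by positivity
  have e2 : 0 < (1 + CT) * K4 := by positivity
  have e3 : 0 < CT ^ 2 := by positivity
  have hC'pos : 0 < C' := by rw [hC']; linarith
  refine ⟨C', hC'pos, ?_⟩
  intro F v q hF hL ε hint hle
  obtain ⟨hWs, hWt⟩ := h1 g C hg v hL.smooth_v
  have hconst : IntegrableOn (fun _ : ℝ => F) (Ioo (-1 : ℝ) 0) := integrableOn_const (by simp)
  have hadd : IntegrableOn (fun t => F + B2 0 8 (v t)) (Ioo (-1) 0) := hconst.add hint
  refine ⟨hL.smooth_v, hWs, ?_, hadd.const_mul C', ?_⟩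
  · intro t ht
    have hv : ContDiff ℝ ∞ (v t) := slice hL.smooth_v ht
    have hq : ContDiff ℝ ∞ (q t) := slice1 hL.smooth_q ht
    have hN : ContDiff ℝ ∞ (fun x i => deriv (fun s => v s x i) t) := dt_smooth hL.smooth_v ht
    set B := B2 0 8 (v t) with hB
    have hB0 : 0 ≤ B := B2_nonneg _ _ _
    have hs0 : 0 ≤ √B := Real.sqrt_nonneg B
    have hL4 : √(L4 0 4 (v t)) ≤ K4 * B := grow_bd hCg hv (hgrow (v t) hv (hL.mean t ht) 2)
    have hL40 : 0 ≤ L4 0 4 (v t) := integral_nonneg fun z => by positivity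
    have hL4' : L4 0 4 (v t) ≤ (K4 * B) ^ 2 := by
      rw [← Real.sqrt_le_left (by positivity)]
      exact hL4
    have hA2 : A2 0 4 (v t) ≤ 257 * K4 * B := by
      refine (A2_le hv).trans ?_
      calc 257 * √(L4 0 4 (v t)) ≤ 257 * (K4 * B) := by linarith
        _ = 257 * K4 * B := by ring
    obtain ⟨hW1, hW2, hW3, hW4⟩ := hdec (v t) hv (hL.divfree t ht)
    have hR : ContDiff ℝ ∞ (res v q t) := res_smooth hL.smooth_v hL.smooth_q ht
    have hN' : ContDiff ℝ ∞ (fun x i => deriv (fun s => v s x i) t - res v q t x i) := by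
      rw [contDiff_pi] at hN hR ⊢
      exact fun i => (hN i).sub (hR i)
    obtain ⟨P, hP1, hP2, hP3, hP4⟩ := hdect (v t)
      (fun x i => deriv (fun s => v s x i) t - res v q t x i) (q t)
      hv hN' hq (hL.divfree t ht) (fun x _ i => by unfold res; ring)
    have hb18 : ball (0 : V) 1 ⊆ ball 0 8 := ball_subset_ball (by norm_num)
    have hb12 : ball (0 : V) 1 ⊆ ball 0 2 := ball_subset_ball (by norm_num)
    have hBF : C' * B ≤ C' * (F + B) := mul_le_mul_of_nonneg_left (by linarith) hC'pos.le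
    have hsq : CD * √(A2 0 4 (v t)) ≤ √(C' * (F + B)) := by
      have : CD * √(A2 0 4 (v t)) = √(CD ^ 2 * A2 0 4 (v t)) := by
        rw [Real.sqrt_mul (by positivity), Real.sqrt_sq hCD.le]
      rw [this]
      apply Real.sqrt_le_sqrt
      calc CD ^ 2 * A2 0 4 (v t) ≤ CD ^ 2 * (257 * K4 * B) :=
            mul_le_mul_of_nonneg_left hA2 (by positivity)
        _ = (257 * K4 * CD ^ 2) * B := by ring
        _ ≤ C' * B := mul_le_mul_of_nonneg_right (by rw [hC']; linarith) hB0
        _ ≤ C' * (F + B) := hBF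
    refine ⟨P, ?_⟩
    refine
      { sv := hv
        sW := hW1
        sN := (dt_smooth hWs ht).continuous
        sP := hP1
        divv := fun x hx => hL.divfree t ht x (hb18 hx)
        divW := fun x _ => hW2 x
        mean := hL.mean t ht
        grad := ?_
        dD := fun z hz i => ((hW4 z hz i).1).trans hsq
        gD := fun z hz i j => ((hW4 z hz i).2 j).trans hsq
        lapD := fun z hz i => hW3 z (hb12 hz) i
        eqP := hP2
        nP := ?_
        evo := ?_ }
    · calc B2 0 8 (v t) = 1 * B := by rw [one_mul]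
        _ ≤ C' * B := mul_le_mul_of_nonneg_right (by rw [hC']; linarith) hB0
        _ ≤ C' * (F + B) := hBF
    · refine hP3.trans ?_
      calc CT * L4 0 4 (v t) ≤ CT * (K4 * B) ^ 2 := mul_le_mul_of_nonneg_left hL4' hCT.le
        _ ≤ (1 + CT) ^ 2 * (K4 * B) ^ 2 := by
            apply mul_le_mul_of_nonneg_right _ (by positivity)
            nlinarith
        _ = ((1 + CT) * K4 * B) ^ 2 := by ring
        _ ≤ (C' * (F + B)) ^ 2 := by
            apply pow_le_pow_left₀ (by positivity)
            refine le_trans ?_ hBF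
            exact mul_le_mul_of_nonneg_right (by rw [hC']; linarith) hB0
    · intro x hx i
      have h5' := hP4 x hx i
      have h6' : deriv (fun s => TT g (v s) x i) t =
          TT g (fun y i => deriv (fun s => v s y i) t) x i := hWt t ht x i
      have h10 := h6 g C hg (fun x i => deriv (fun s => v s x i) t) (res v q t) hN hR x i
      have h11 := hsupt F (res v q t) hF hR (hL.force t ht) x hx i
      rw [h10] at h5'
      show |deriv (fun s => TT g (v s) x i) t + adv (v t) (fun y => v t y i) x -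
        lap (fun y => v t y i) x + pd i P x| ≤ √(C' * (F + B)) + C' * (F + B)
      rw [h6']
      have h7 : √(B2 0 4 (v t)) ≤ √B := Real.sqrt_le_sqrt (B2_mono hv (by norm_num))
      have h8 : CT * √B ≤ √(C' * (F + B)) := by
        have : CT * √B = √(CT ^ 2 * B) := by
          rw [Real.sqrt_mul (by positivity), Real.sqrt_sq hCT.le]
        rw [this]
        apply Real.sqrt_le_sqrt
        refine le_trans ?_ hBF
        exact mul_le_mul_of_nonneg_right (by rw [hC']; linarith) hB0
      have h9 : CT * (K4 * B) ≤ (1 + CT) * K4 * B := by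
        calc CT * (K4 * B) = CT * K4 * B := by ring
          _ ≤ (1 + CT) * K4 * B := by
            apply mul_le_mul_of_nonneg_right _ hB0
            nlinarith
      have h12 : CT * (√(B2 0 4 (v t)) + √(L4 0 4 (v t))) ≤
          √(C' * (F + B)) + (1 + CT) * K4 * B := by
        calc CT * (√(B2 0 4 (v t)) + √(L4 0 4 (v t))) ≤ CT * (√B + K4 * B) :=
              mul_le_mul_of_nonneg_left (add_le_add h7 hL4) hCT.le
          _ = CT * √B + CT * (K4 * B) := by ring
          _ ≤ √(C' * (F + B)) + (1 + CT) * K4 * B := add_le_add h8 h9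
      have h13 : (1 + CT) * K4 * B + CS * F ≤ C' * (F + B) := by
        have e4 : (1 + CT) * K4 * B ≤ C' * B :=
          mul_le_mul_of_nonneg_right (by rw [hC']; linarith) hB0
        have e5 : CS * F ≤ C' * F := mul_le_mul_of_nonneg_right (by rw [hC']; linarith) hF
        calc (1 + CT) * K4 * B + CS * F ≤ C' * B + C' * F := add_le_add e4 e5
          _ = C' * (F + B) := by ring
      rw [abs_le] at h5' h11 ⊢
      constructor
      · linarith [h5'.1, h11.1]
      · linarith [h5'.2, h11.2]
  · rw [integral_const_mul, integral_add hconst hint, setIntegral_const]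
    simpa using hle

end Pool.Agent.W878.MH
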